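import Pool.Agent.Work.MP_e680c3_co.Octa

/-!
# Sinkability of triangulations with an uncrossed great circle

A shortest-path triangulation with no vertex at a pole and with a great circle crossed by no edge is
sinkable if and only if no edge passes through the north pole.
-/

open Pool.Agent.Work.MP_e680c3_co

namespace Pool.Agent.Results.MP_e680c3_co.SinkabilityCriterion

/-- Let `p : V → ℝ³`, `F` be a shortest-path triangulation of the sphere with no vertex at a pole,
such that some great circle is crossed by no edge. It is sinkable if and only if the north pole is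
on no edge. (So the answer to the question is positive as soon as the north pole is on no edge.)
An octahedron with an edge through the north pole shows that this last condition is not
automatic. -/
theorem result :
    (∀ (V : Type) [Finite V] (F : Set (V × V × V)) (p : V → Fin 3 → ℝ), IsTriangulation F p →
      (∀ v, p v 0 ≠ 0 ∨ p v 1 ≠ 0) → HasUncrossedGreatCircle F p →
      (Sinkable F p ↔ ∀ a b x, (a, b, x) ∈ F → north ∉ arc (p a) (p b))) ∧
    (∃ (F : Set ((Fin 3 × Bool) × (Fin 3 × Bool) × (Fin 3 × Bool)))
      (p : Fin 3 × Bool → Fin 3 → ℝ), IsTriangulation F p ∧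
      (∀ v, p v 0 ≠ 0 ∨ p v 1 ≠ 0) ∧ HasUncrossedGreatCircle F p ∧ ¬ Sinkable F p) :=
  ⟨fun _ _ _ _ hT hp hun => main hT hp hun,
    ⟨FO, po, octa_tri, octa_poles, octa_uncrossed, octa_not_sinkable⟩⟩

end Pool.Agent.Results.MP_e680c3_co.SinkabilityCriterion
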